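import Pool.Agent.Helper62.HX.Stm
import Pool.Agent.Helper18.BM.HW

/-!
# The Hasse-Witt functionals of a hyperelliptic family of even degree: horizontality, degrees
-/

set_option autoImplicit false

open Polynomial Matrix Finset

namespace Pool.Agent.Helper72.HX

open Pool.Agent.Helper62.BM Pool.Agent.Helper62.BW Pool.Agent.Helper62.BX Pool.Agent.Helper62.VX
  Pool.Agent.Helper62.HX Pool.Agent.Helper18.BM

theorem cdeg_bE {R : Type} [CommRing R] (g T : ℕ) (G : R[X][X]) (hG : CDeg G T)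
    (l : Fin (2 * g)) : CDeg (bE g G l) T := by
  unfold bE
  split_ifs
  · intro i
    have h := ((cdeg_X (R := R) 0).pow (l : ℕ)) i
    rw [mul_zero] at h
    exact h.trans (Nat.zero_le _)
  · have h := ((cdeg_X (R := R) 0).pow ((l : ℕ) - g)).mul hG
    rwa [mul_zero, zero_add] at h

theorem h_HWdeg : H_HWdeg := by
  intro R _ p g T G H hp hG hH i l
  have hF : CDeg (G ^ 2 + H) (2 * T) := by
    intro j
    rw [coeff_add]
    refine (natDegree_add_le _ _).trans (max_le ((CDeg.pow (show CDeg G T from hG) 2) j) ?_)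
    exact (hH j).trans (by omega)
  have h1 := (cdeg_bE g T G hG l).mul (hF.pow ((p - 1) / 2))
  refine (h1 _).trans ?_
  have h2 : (p - 1) / 2 * (2 * T) ≤ (p - 1) * T := by
    have := Nat.div_mul_le_self (p - 1) 2
    calc (p - 1) / 2 * (2 * T) = (p - 1) / 2 * 2 * T := by ring
      _ ≤ (p - 1) * T := Nat.mul_le_mul_right _ this
  calc T + (p - 1) / 2 * (2 * T) ≤ T + (p - 1) * T := Nat.add_le_add_left h2 _
    _ = T * p := by
      obtain ⟨k, rfl⟩ := Nat.exists_eq_add_of_le hp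
      rw [Nat.add_sub_cancel_left]
      ring

theorem h_HWb : H_HWb := by
  intro R _ p _ _ hp2 g G H W P S M hR i l
  have hp : p.Prime := Fact.out
  obtain ⟨s, hs⟩ : ∃ s, p = 2 * (s + 1) + 1 := by
    obtain ⟨k, hk⟩ := hp.odd_of_ne_two hp2
    have := hp.two_le
    exact ⟨k - 1, by omega⟩
  have hq : (p - 1) / 2 = s + 1 := by omega
  obtain ⟨-, -, hrel, hM⟩ := hR l
  have h2q : (2 : R[X][X]) * ((s + 1 : ℕ) : R[X][X]) = -1 := by
    have h0 : ((2 * (s + 1) + 1 : ℕ) : R[X][X]) = 0 := by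
      rw [← hs]
      exact CharP.cast_eq_zero _ p
    push_cast at h0 ⊢
    linear_combination h0
  have hL : W * derivative (YE p g G (G ^ 2 + H) i l) =
      (Polynomial.C W * dc (bE g G l * (G ^ 2 + H) ^ (s + 1))).coeff (p * ((i : ℕ) + 1) - 1) := by
    rw [coeff_C_mul, dc_coeff, YE, Matrix.of_apply, hq]
  have hRt : ∑ m, YE p g G (G ^ 2 + H) i m * M m l =
      ((∑ m, Polynomial.C (M m l) * bE g G m) * (G ^ 2 + H) ^ (s + 1)).coeff
        (p * ((i : ℕ) + 1) - 1) := by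
    rw [Finset.sum_mul, finsetSum_coeff]
    refine Finset.sum_congr rfl fun m _ => ?_
    rw [mul_assoc, coeff_C_mul, YE, Matrix.of_apply, hq]
    ring
  have hdt : ∀ f : R[X][X], dt f = dc f := fun _ => rfl
  rw [hdt] at hrel hM
  have ed : derivative ((G ^ 2 + H) ^ (s + 1)) =
      ((s + 1 : ℕ) : R[X][X]) * (G ^ 2 + H) ^ s * derivative (G ^ 2 + H) := by
    have e7 : (Polynomial.C ((s + 1 : ℕ) : R[X]) : R[X][X]) = ((s + 1 : ℕ) : R[X][X]) :=
      map_natCast _ _
    rw [derivative_pow, e7, Nat.add_sub_cancel]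
  have ec : dc ((G ^ 2 + H) ^ (s + 1)) =
      ((s + 1 : ℕ) : R[X][X]) * (G ^ 2 + H) ^ s * dc (G ^ 2 + H) := dc_pow _ s
  have key : Polynomial.C W * dc (bE g G l * (G ^ 2 + H) ^ (s + 1)) =
      (Polynomial.C W * dc (bE g G l) - P l - 2 * derivative (S l)) * (G ^ 2 + H) ^ (s + 1) +
        derivative (2 * S l * (G ^ 2 + H) ^ (s + 1)) := by
    have e2 : derivative (2 * S l * (G ^ 2 + H) ^ (s + 1)) =
        2 * derivative (S l) * (G ^ 2 + H) ^ (s + 1) +
          2 * S l * derivative ((G ^ 2 + H) ^ (s + 1)) := by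
      have e3 : (2 : R[X][X]) = Polynomial.C 2 := (map_ofNat Polynomial.C 2).symm
      rw [derivative_mul, e3, derivative_C_mul]
    rw [dc_mul, e2, ed, ec, pow_succ]
    linear_combination (-((s + 1 : ℕ) : R[X][X]) * (G ^ 2 + H) ^ s) * hrel +
      ((G ^ 2 + H) ^ s * (P l * (G ^ 2 + H))) * h2q
  rw [hL, hRt, key, hM, coeff_add, coeff_der, add_zero]

end Pool.Agent.Helper72.HX
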